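import Pool.Agent.H289R3.FQ.Main
import Pool.Agent.H672R3.FQ.Stokes
import Pool.Agent.H790.FQ.Torus

set_option autoImplicit false
open Set Topology
open Pool.Agent.H289R3.FQ

namespace Pool.Agent.Results.MP_59a510_gt.NotAFlowQuotient

/-- A negative answer to Q1. The product `(ℂ ∖ {0})⁵` of five punctured planes, a connected open
subset of `ℂ⁵` and hence a connected oriented `10`-manifold, is not the quotient of any smooth
complete flow on `(ℝ² ∖ S) × ℝ⁹`, for any discrete closed subset `S` of the plane. -/
theorem result :
    IsOpen PuncturedFive ∧ IsConnected PuncturedFive ∧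
      ¬ RealizedAsQuotient 10 PuncturedFive := by
  refine ⟨isOpen_puncturedFive, ?_,
    not_realized (Pool.Agent.H790.FQ.taskTorus Pool.Agent.H672R3.FQ.taskStokes)⟩
  have h : PuncturedFive = Set.pi univ (fun _ : Fin 5 => ({0}ᶜ : Set ℂ)) := by
    ext z
    simp [PuncturedFive]
  rw [h]
  refine isConnected_univ_pi.2 fun _ => ?_
  exact isConnected_compl_singleton_of_one_lt_rank
    (by rw [Complex.rank_real_complex]; norm_num) 0

end Pool.Agent.Results.MP_59a510_gt.NotAFlowQuotient
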